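import Mathlib

/-!
# Quantum cohomology and exceptional collections: data and known facts
-/

namespace Pool.Agent.N522.DUB

/-- Smooth projective varieties, their invariants and some constructions. -/
structure Theory where
  /-- smooth projective complex varieties -/
  Var : Type
  /-- Hodge numbers `h^{p,q}` -/
  h : Var → ℕ → ℕ → ℕ
  /-- the big quantum cohomology is semisimple -/
  Semisimple : Var → Prop
  /-- `D^b(X)` has a full exceptional collection of length `dim H^*(X)` -/
  Exceptional : Var → Prop
  /-- products -/
  prod : Var → Var → Var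
  /-- vector bundles of rank at least one -/
  Bundle : Var → Type
  /-- the rank -/
  rk : ∀ {X : Var}, Bundle X → ℕ
  /-- the projective bundle `ℙ(V) → X` -/
  proj : ∀ X : Var, Bundle X → Var
  /-- connected smooth closed subvarieties of codimension at least two -/
  Centre : Var → Type
  /-- the subvariety as a variety -/
  sub : ∀ {X : Var}, Centre X → Var
  /-- the codimension -/
  codim : ∀ {X : Var}, Centre X → ℕ
  /-- the blow-up -/
  blow : ∀ X : Var, Centre X → Var

variable {T : Theory}

/-- `h^{p,q}(X) = 0` for `p ≠ q` -/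
def HodgeTate (X : T.Var) : Prop := ∀ p q : ℕ, p ≠ q → T.h X p q = 0

/-- Q1 for `X` -/
def Q1 (X : T.Var) : Prop := T.Semisimple X ↔ T.Exceptional X

/-- Varieties whose quantum cohomology is semisimple and which have a full exceptional collection. -/
def Good (X : T.Var) : Prop := T.Semisimple X ∧ T.Exceptional X

/-- The class of the theorem: `X` is good, or some `h^{p,q}(X)` with `p ≠ q` is non-zero. -/
def InClass (X : T.Var) : Prop := Good X ∨ ¬ HodgeTate X

/-- Known formulas for the Hodge numbers. -/
structure HodgeFacts (T : Theory) : Prop where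
  point : ∀ X : T.Var, T.h X 0 0 ≠ 0
  prod : ∀ (X Y : T.Var) (p q : ℕ), T.h (T.prod X Y) p q =
    ∑ a ∈ Finset.range (p + 1), ∑ b ∈ Finset.range (q + 1), T.h X a b * T.h Y (p - a) (q - b)
  rk_pos : ∀ (X : T.Var) (V : T.Bundle X), 0 < T.rk V
  proj : ∀ (X : T.Var) (V : T.Bundle X) (p q : ℕ), T.h (T.proj X V) p q =
    ∑ i ∈ (Finset.range (T.rk V)).filter (fun i => i ≤ p ∧ i ≤ q), T.h X (p - i) (q - i)
  codim_ge : ∀ (X : T.Var) (Z : T.Centre X), 2 ≤ T.codim Z
  blow : ∀ (X : T.Var) (Z : T.Centre X) (p q : ℕ), T.h (T.blow X Z) p q = T.h X p q +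
    ∑ i ∈ (Finset.Ico 1 (T.codim Z)).filter (fun i => i ≤ p ∧ i ≤ q), T.h (T.sub Z) (p - i) (q - i)

/-- Known facts on quantum cohomology: products (Künneth formula for Gromov–Witten invariants),
projective bundles (Iritani–Koto), blow-ups (Iritani), and the theorem of Hertling, Manin and
Teleman. -/
structure QuantumFacts (T : Theory) : Prop where
  prod : ∀ X Y : T.Var, T.Semisimple X → T.Semisimple Y → T.Semisimple (T.prod X Y)
  proj : ∀ (X : T.Var) (V : T.Bundle X), T.Semisimple X → T.Semisimple (T.proj X V)
  blow : ∀ (X : T.Var) (Z : T.Centre X), T.Semisimple X → T.Semisimple (T.sub Z) →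
    T.Semisimple (T.blow X Z)
  hodge : ∀ X : T.Var, T.Semisimple X → HodgeTate X

/-- Known facts on exceptional collections: products, projective bundles and blow-ups (Orlov), and
`h^{p,q} = 0` for `p ≠ q` (additivity of Hochschild homology). -/
structure DerivedFacts (T : Theory) : Prop where
  prod : ∀ X Y : T.Var, T.Exceptional X → T.Exceptional Y → T.Exceptional (T.prod X Y)
  proj : ∀ (X : T.Var) (V : T.Bundle X), T.Exceptional X → T.Exceptional (T.proj X V)
  blow : ∀ (X : T.Var) (Z : T.Centre X), T.Exceptional X → T.Exceptional (T.sub Z) →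
    T.Exceptional (T.blow X Z)
  hodge : ∀ X : T.Var, T.Exceptional X → HodgeTate X

/-- The smallest class of varieties containing those in `S` and closed under products, projective
bundles and blow-ups with centre in the class. -/
inductive Gen (T : Theory) (S : T.Var → Prop) : T.Var → Prop
  | base (X : T.Var) : S X → Gen T S X
  | prod (X Y : T.Var) : Gen T S X → Gen T S Y → Gen T S (T.prod X Y)
  | proj (X : T.Var) (V : T.Bundle X) : Gen T S X → Gen T S (T.proj X V)
  | blow (X : T.Var) (Z : T.Centre X) : Gen T S X → Gen T S (T.sub Z) → Gen T S (T.blow X Z)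

end Pool.Agent.N522.DUB
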