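import Pool.Agent.N522.DUB.Defs

/-!
# Closure properties of the class
-/

namespace Pool.Agent.N522.DUB

variable {T : Theory}

theorem q1_of_inClass (hQ : QuantumFacts T) (hD : DerivedFacts T) (X : T.Var) (h : InClass X) :
    Q1 X := by
  rcases h with h | h
  · exact ⟨fun _ => h.2, fun _ => h.1⟩
  · exact ⟨fun h1 => absurd (hQ.hodge X h1) h, fun h1 => absurd (hD.hodge X h1) h⟩

theorem not_hodgeTate_iff (X : T.Var) : ¬ HodgeTate X ↔ ∃ p q : ℕ, p ≠ q ∧ T.h X p q ≠ 0 := by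
  unfold HodgeTate
  push Not
  rfl

theorem not_ht_left (hH : HodgeFacts T) (X Y : T.Var) (h : ¬ HodgeTate X) :
    ¬ HodgeTate (T.prod X Y) := by
  rw [not_hodgeTate_iff] at *
  obtain ⟨p, q, hpq, h⟩ := h
  refine ⟨p, q, hpq, ?_⟩
  rw [hH.prod]
  intro h0
  rw [Finset.sum_eq_zero_iff] at h0
  have h1 := h0 p (by simp)
  rw [Finset.sum_eq_zero_iff] at h1
  have h2 := h1 q (by simp)
  rw [Nat.sub_self, Nat.sub_self, Nat.mul_eq_zero] at h2
  exact h2.elim h (hH.point Y)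

theorem not_ht_right (hH : HodgeFacts T) (X Y : T.Var) (h : ¬ HodgeTate Y) :
    ¬ HodgeTate (T.prod X Y) := by
  rw [not_hodgeTate_iff] at *
  obtain ⟨p, q, hpq, h⟩ := h
  refine ⟨p, q, hpq, ?_⟩
  rw [hH.prod]
  intro h0
  rw [Finset.sum_eq_zero_iff] at h0
  have h1 := h0 0 (by simp)
  rw [Finset.sum_eq_zero_iff] at h1
  have h2 := h1 0 (by simp)
  rw [Nat.sub_zero, Nat.sub_zero, Nat.mul_eq_zero] at h2
  exact h2.elim (hH.point X) h

theorem not_ht_proj (hH : HodgeFacts T) (X : T.Var) (V : T.Bundle X) (h : ¬ HodgeTate X) :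
    ¬ HodgeTate (T.proj X V) := by
  rw [not_hodgeTate_iff] at *
  obtain ⟨p, q, hpq, h⟩ := h
  refine ⟨p, q, hpq, ?_⟩
  rw [hH.proj]
  intro h0
  rw [Finset.sum_eq_zero_iff] at h0
  have h1 := h0 0 (by simp [hH.rk_pos X V])
  rw [Nat.sub_zero, Nat.sub_zero] at h1
  exact h h1

theorem not_ht_blow (hH : HodgeFacts T) (X : T.Var) (Z : T.Centre X) (h : ¬ HodgeTate X) :
    ¬ HodgeTate (T.blow X Z) := by
  rw [not_hodgeTate_iff] at *
  obtain ⟨p, q, hpq, h⟩ := h
  refine ⟨p, q, hpq, ?_⟩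
  rw [hH.blow]
  omega

theorem not_ht_centre (hH : HodgeFacts T) (X : T.Var) (Z : T.Centre X)
    (h : ¬ HodgeTate (T.sub Z)) : ¬ HodgeTate (T.blow X Z) := by
  rw [not_hodgeTate_iff] at *
  obtain ⟨p, q, hpq, h⟩ := h
  refine ⟨p + 1, q + 1, by omega, ?_⟩
  rw [hH.blow]
  intro h0
  have h1 : ∑ i ∈ (Finset.Ico 1 (T.codim Z)).filter (fun i => i ≤ p + 1 ∧ i ≤ q + 1),
      T.h (T.sub Z) (p + 1 - i) (q + 1 - i) = 0 := by omega
  rw [Finset.sum_eq_zero_iff] at h1
  have h2 := h1 1 (by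
    have := hH.codim_ge X Z
    simp only [Finset.mem_filter, Finset.mem_Ico]
    omega)
  rw [Nat.add_sub_cancel, Nat.add_sub_cancel] at h2
  exact h h2

theorem inClass_prod (hH : HodgeFacts T) (hQ : QuantumFacts T) (hD : DerivedFacts T)
    (X Y : T.Var) (hX : InClass X) (hY : InClass Y) : InClass (T.prod X Y) := by
  rcases hX with hX | hX
  · rcases hY with hY | hY
    · exact Or.inl ⟨hQ.prod X Y hX.1 hY.1, hD.prod X Y hX.2 hY.2⟩
    · exact Or.inr (not_ht_right hH X Y hY)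
  · exact Or.inr (not_ht_left hH X Y hX)

theorem inClass_proj (hH : HodgeFacts T) (hQ : QuantumFacts T) (hD : DerivedFacts T)
    (X : T.Var) (V : T.Bundle X) (hX : InClass X) : InClass (T.proj X V) := by
  rcases hX with hX | hX
  · exact Or.inl ⟨hQ.proj X V hX.1, hD.proj X V hX.2⟩
  · exact Or.inr (not_ht_proj hH X V hX)

theorem inClass_blow (hH : HodgeFacts T) (hQ : QuantumFacts T) (hD : DerivedFacts T)
    (X : T.Var) (Z : T.Centre X) (hX : InClass X) (hZ : InClass (T.sub Z)) :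
    InClass (T.blow X Z) := by
  rcases hX with hX | hX
  · rcases hZ with hZ | hZ
    · exact Or.inl ⟨hQ.blow X Z hX.1 hZ.1, hD.blow X Z hX.2 hZ.2⟩
    · exact Or.inr (not_ht_centre hH X Z hZ)
  · exact Or.inr (not_ht_blow hH X Z hX)

theorem inClass_gen (hH : HodgeFacts T) (hQ : QuantumFacts T) (hD : DerivedFacts T)
    (X : T.Var) (h : Gen T InClass X) : InClass X := by
  induction h with
  | base X h => exact h
  | prod X Y _ _ ih1 ih2 => exact inClass_prod hH hQ hD X Y ih1 ih2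
  | proj X V _ ih => exact inClass_proj hH hQ hD X V ih
  | blow X Z _ _ ih1 ih2 => exact inClass_blow hH hQ hD X Z ih1 ih2

end Pool.Agent.N522.DUB
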